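import Pool.Agent.Lib_helper87.NefK.Defs

/-! Residues at a discrete valuation and the canonical module in a chart. -/

namespace NefK

open scoped WithZero
open NefRed

section

variable {k F : Type} [Field k] [Field F] [Algebra k F]

/-- The residue of `r` at `v` belongs to the field generated by the residues of the `z i`. -/
def ResGen (v : Place k F) {n : ℕ} (z : Fin n → F) (r : F) : Prop :=
  ∃ P Q : MvPolynomial (Fin n) k, v.val (MvPolynomial.aeval z Q) = 1 ∧
    v.val (MvPolynomial.aeval z P - r * MvPolynomial.aeval z Q) < 1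

lemma val_algebraMap_le (v : Place k F) (c : k) : v.val (algebraMap k F c) ≤ 1 := by
  by_cases hc : c = 0
  · simp [hc]
  · exact (v.triv c hc).le

lemma val_aeval_le_one (v : Place k F) {τ : Type} (z : τ → F) (hz : ∀ i, v.val (z i) ≤ 1)
    (P : MvPolynomial τ k) : v.val (MvPolynomial.aeval z P) ≤ 1 := by
  induction P using MvPolynomial.induction_on with
  | C c =>
    rw [MvPolynomial.aeval_C]
    exact val_algebraMap_le v c
  | add p q hp hq =>
    rw [map_add]
    exact (Valuation.map_add _ _ _).trans (max_le hp hq)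
  | mul_X p i hp =>
    rw [map_mul, map_mul, MvPolynomial.aeval_X]
    exact mul_le_one' hp (hz i)

/-! ### H1 -/

theorem ResGen.le_one {v : Place k F} {n : ℕ} {z : Fin n → F} (hz : ∀ i, v.val (z i) ≤ 1) {r : F}
    (h : ResGen v z r) : v.val r ≤ 1 := by
  obtain ⟨P, Q, hQ, hPQ⟩ := h
  have h1 : r * MvPolynomial.aeval z Q = MvPolynomial.aeval z P -
      (MvPolynomial.aeval z P - r * MvPolynomial.aeval z Q) := by ring
  have h2 : v.val r = v.val (r * MvPolynomial.aeval z Q) := by rw [map_mul, hQ, mul_one]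
  rw [h2, h1]
  exact (Valuation.map_sub _ _ _).trans (max_le (val_aeval_le_one v z hz P) hPQ.le)

theorem ResGen.var {v : Place k F} {n : ℕ} {z : Fin n → F} (i : Fin n) : ResGen v z (z i) :=
  ⟨MvPolynomial.X i, 1, by simp, by simp⟩

theorem ResGen.const {v : Place k F} {n : ℕ} {z : Fin n → F} (c : k) :
    ResGen v z (algebraMap k F c) :=
  ⟨MvPolynomial.C c, 1, by simp, by simp⟩

theorem ResGen.of_lt {v : Place k F} {n : ℕ} {z : Fin n → F} {r : F} (h : v.val r < 1) :
    ResGen v z r :=
  ⟨0, 1, by simp, by simpa using h⟩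

theorem ResGen.add {v : Place k F} {n : ℕ} {z : Fin n → F} (_hz : ∀ i, v.val (z i) ≤ 1) {r s : F}
    (hr : ResGen v z r) (hs : ResGen v z s) : ResGen v z (r + s) := by
  obtain ⟨P1, Q1, hQ1, h1⟩ := hr
  obtain ⟨P2, Q2, hQ2, h2⟩ := hs
  refine ⟨P1 * Q2 + P2 * Q1, Q1 * Q2, by simp [hQ1, hQ2], ?_⟩
  have h3 : MvPolynomial.aeval z (P1 * Q2 + P2 * Q1) - (r + s) * MvPolynomial.aeval z (Q1 * Q2)
      = MvPolynomial.aeval z Q2 * (MvPolynomial.aeval z P1 - r * MvPolynomial.aeval z Q1)
        + MvPolynomial.aeval z Q1 * (MvPolynomial.aeval z P2 - s * MvPolynomial.aeval z Q2) := by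
    simp only [map_add, map_mul]
    ring
  rw [h3]
  refine lt_of_le_of_lt (Valuation.map_add _ _ _) (max_lt ?_ ?_)
  · rw [map_mul, hQ2, one_mul]; exact h1
  · rw [map_mul, hQ1, one_mul]; exact h2

theorem ResGen.mul {v : Place k F} {n : ℕ} {z : Fin n → F} (hz : ∀ i, v.val (z i) ≤ 1) {r s : F}
    (hr : ResGen v z r) (hs : ResGen v z s) : ResGen v z (r * s) := by
  have hs1 := hs.le_one hz
  obtain ⟨P1, Q1, hQ1, h1⟩ := hr
  obtain ⟨P2, Q2, hQ2, h2⟩ := hs
  refine ⟨P1 * P2, Q1 * Q2, by simp [hQ1, hQ2], ?_⟩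
  have h3 : MvPolynomial.aeval z (P1 * P2) - (r * s) * MvPolynomial.aeval z (Q1 * Q2)
      = MvPolynomial.aeval z P1 * (MvPolynomial.aeval z P2 - s * MvPolynomial.aeval z Q2)
        + (s * MvPolynomial.aeval z Q2) *
          (MvPolynomial.aeval z P1 - r * MvPolynomial.aeval z Q1) := by
    simp only [map_mul]
    ring
  rw [h3]
  refine lt_of_le_of_lt (Valuation.map_add _ _ _) (max_lt ?_ ?_)
  · rw [map_mul]
    exact lt_of_le_of_lt (mul_le_of_le_one_left' (val_aeval_le_one v z hz P1)) h2
  · rw [map_mul, map_mul, hQ2, mul_one]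
    exact lt_of_le_of_lt (mul_le_of_le_one_left' hs1) h1

theorem ResGen.inv {v : Place k F} {n : ℕ} {z : Fin n → F} (_hz : ∀ i, v.val (z i) ≤ 1) {r : F}
    (hr : ResGen v z r) (h1 : v.val r = 1) : ResGen v z r⁻¹ := by
  obtain ⟨P, Q, hQ, hPQ⟩ := hr
  have hr0 : r ≠ 0 := by
    rintro rfl
    simp at h1
  have h2 : v.val (r * MvPolynomial.aeval z Q) = 1 := by rw [map_mul, h1, hQ, mul_one]
  have h3 : v.val (MvPolynomial.aeval z P) = 1 := by
    have h4 : MvPolynomial.aeval z P = (MvPolynomial.aeval z P - r * MvPolynomial.aeval z Q)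
        + r * MvPolynomial.aeval z Q := by ring
    rw [h4, Valuation.map_add_eq_of_lt_right _ (by rw [h2]; exact hPQ), h2]
  refine ⟨Q, P, h3, ?_⟩
  have h5 : MvPolynomial.aeval z Q - r⁻¹ * MvPolynomial.aeval z P
      = -(r⁻¹ * (MvPolynomial.aeval z P - r * MvPolynomial.aeval z Q)) := by
    field_simp
    ring
  rw [h5, Valuation.map_neg, map_mul, map_inv₀, h1, inv_one, one_mul]
  exact hPQ

/-! ### H2 -/

/-- the valuation ring as a subalgebra -/
def OO (v : Place k F) : Subalgebra k F where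
  carrier := {x | v.val x ≤ 1}
  mul_mem' := by
    intro a b ha hb
    have ha' : v.val a ≤ 1 := ha
    have hb' : v.val b ≤ 1 := hb
    change v.val (a * b) ≤ 1
    rw [map_mul]
    exact mul_le_one' ha' hb'
  add_mem' := by
    intro a b ha hb
    have ha' : v.val a ≤ 1 := ha
    have hb' : v.val b ≤ 1 := hb
    exact (Valuation.map_add v.val a b).trans (max_le ha' hb')
  algebraMap_mem' c := val_algebraMap_le v c

/-- the maximal ideal -/
def mm (v : Place k F) : Ideal (OO v) where
  carrier := {x | v.val (x : F) < 1}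
  add_mem' := by
    intro a b ha hb
    have ha' : v.val (a : F) < 1 := ha
    have hb' : v.val (b : F) < 1 := hb
    exact lt_of_le_of_lt (Valuation.map_add v.val (a : F) (b : F)) (max_lt ha' hb')
  zero_mem' := by simp
  smul_mem' := by
    intro c x hx
    have hx' : v.val (x : F) < 1 := hx
    change v.val ((c : F) * (x : F)) < 1
    rw [map_mul]
    exact lt_of_le_of_lt (mul_le_of_le_one_left' c.2) hx'

lemma mem_mm {v : Place k F} {x : OO v} : x ∈ mm v ↔ v.val (x : F) < 1 := Iff.rfl

instance mm_prime (v : Place k F) : (mm v).IsPrime where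
  ne_top' := by
    rw [Ideal.ne_top_iff_one, mem_mm]
    simp
  mem_or_mem' := by
    intro x y hxy
    rw [mem_mm] at hxy ⊢
    rw [mem_mm]
    by_contra! h
    have hx : v.val (x : F) = 1 := le_antisymm x.2 h.1
    have hy : v.val (y : F) = 1 := le_antisymm y.2 h.2
    have : v.val ((x * y : OO v) : F) = 1 := by
      change v.val ((x : F) * (y : F)) = 1
      rw [map_mul, hx, hy, one_mul]
    rw [this] at hxy
    exact lt_irrefl _ hxy

/-- the residues of a family -/
def zbar (v : Place k F) {τ : Type} (z : τ → F) (hz : ∀ i, v.val (z i) ≤ 1) (i : τ) :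
    OO v ⧸ mm v :=
  Ideal.Quotient.mk (mm v) ⟨z i, hz i⟩

lemma aeval_zbar (v : Place k F) {τ : Type} (z : τ → F) (hz : ∀ i, v.val (z i) ≤ 1)
    (P : MvPolynomial τ k) :
    MvPolynomial.aeval (zbar v z hz) P
      = Ideal.Quotient.mk (mm v) ⟨MvPolynomial.aeval z P, val_aeval_le_one v z hz P⟩ := by
  have h1 : MvPolynomial.aeval (zbar v z hz) P
      = Ideal.Quotient.mkₐ k (mm v)
        (MvPolynomial.aeval (fun i => (⟨z i, hz i⟩ : OO v)) P) := by
    rw [MvPolynomial.comp_aeval_apply]
    rfl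
  rw [h1]
  change Ideal.Quotient.mk (mm v) _ = _
  congr 1
  apply Subtype.ext
  change (OO v).val _ = _
  rw [MvPolynomial.comp_aeval_apply]
  rfl

lemma algInd_iff (v : Place k F) {τ : Type} (z : τ → F) (hz : ∀ i, v.val (z i) ≤ 1) :
    AlgebraicIndependent k (zbar v z hz) ↔ ResIndep (k := k) v.val z := by
  rw [algebraicIndependent_iff]
  constructor
  · intro h P hP
    by_contra hne
    have hlt : v.val (MvPolynomial.aeval z P) < 1 :=
      lt_of_le_of_ne (val_aeval_le_one v z hz P) hne
    apply hP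
    apply h
    rw [aeval_zbar, Ideal.Quotient.eq_zero_iff_mem]
    exact hlt
  · intro h P hP
    by_contra hne
    rw [aeval_zbar, Ideal.Quotient.eq_zero_iff_mem] at hP
    have hlt : v.val (MvPolynomial.aeval z P) < 1 := hP
    rw [h P hne] at hlt
    exact lt_irrefl _ hlt

/-- H2 (exchange). -/
theorem exists_resIndep {n m : ℕ} (v : Place k F) (z : Fin n → F) (hz : ∀ i, v.val (z i) ≤ 1)
    (r : Fin m → F) (hr : ResIndep (k := k) v.val r) (hgen : ∀ i, ResGen v z (r i)) :
    ∃ e : Fin m ↪ Fin n, ResIndep (k := k) v.val (z ∘ e) := by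
  classical
  have hr1 : ∀ i, v.val (r i) ≤ 1 := fun i => (hgen i).le_one hz
  have hrI : AlgebraicIndependent k (zbar v r hr1) := (algInd_iff v r hr1).2 hr
  have hdom : IsDomain (OO v ⧸ mm v) := Ideal.Quotient.isDomain _
  have hnt : Nontrivial (OO v ⧸ mm v) := hdom.toNontrivial
  have hfaith : FaithfulSMul k (OO v ⧸ mm v) :=
    (faithfulSMul_iff_algebraMap_injective _ _).2 (algebraMap k (OO v ⧸ mm v)).injective
  let M := AlgebraicIndependent.matroid k (OO v ⧸ mm v)
  have hI : M.Indep (Set.range (zbar v r hr1)) := by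
    change (AlgebraicIndependent.matroid k (OO v ⧸ mm v)).Indep _
    rw [AlgebraicIndependent.matroid_indep_iff]
    exact hrI.to_subtype_range
  have hcl : Set.range (zbar v r hr1) ⊆ M.closure (Set.range (zbar v z hz)) := by
    rintro _ ⟨i, rfl⟩
    change _ ∈ (AlgebraicIndependent.matroid k (OO v ⧸ mm v)).closure _
    rw [AlgebraicIndependent.matroid_closure_eq]
    obtain ⟨P, Q, hQ, hPQ⟩ := hgen i
    rw [SetLike.mem_coe, Subalgebra.mem_algebraicClosure]
    have hmem : ∀ P : MvPolynomial (Fin n) k, MvPolynomial.aeval (zbar v z hz) P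
        ∈ Algebra.adjoin k (Set.range (zbar v z hz)) := by
      intro P
      rw [Algebra.adjoin_range_eq_range_aeval]
      exact ⟨P, rfl⟩
    let p : Algebra.adjoin k (Set.range (zbar v z hz)) := ⟨_, hmem P⟩
    let q : Algebra.adjoin k (Set.range (zbar v z hz)) := ⟨_, hmem Q⟩
    have hq : q ≠ 0 := by
      intro h
      have h2 : MvPolynomial.aeval (zbar v z hz) Q = 0 := congrArg Subtype.val h
      rw [aeval_zbar, Ideal.Quotient.eq_zero_iff_mem] at h2
      have h3 : v.val (MvPolynomial.aeval z Q) < 1 := h2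
      rw [hQ] at h3
      exact lt_irrefl _ h3
    refine ⟨Polynomial.C q * Polynomial.X - Polynomial.C p, ?_, ?_⟩
    · intro h
      have h1 := congrArg (fun f => f.coeff 1) h
      simp at h1
      exact hq h1
    · rw [map_sub, map_mul, Polynomial.aeval_C, Polynomial.aeval_C, Polynomial.aeval_X]
      change MvPolynomial.aeval (zbar v z hz) Q * zbar v r hr1 i
        - MvPolynomial.aeval (zbar v z hz) P = 0
      rw [aeval_zbar, aeval_zbar, zbar, ← map_mul, ← map_sub, Ideal.Quotient.eq_zero_iff_mem]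
      change v.val (MvPolynomial.aeval z Q * r i - MvPolynomial.aeval z P) < 1
      rw [← Valuation.map_neg]
      convert hPQ using 2
      ring
  obtain ⟨J, hJ⟩ := M.exists_isBasis' (Set.range (zbar v z hz))
  have hcard : (m : ℕ∞) ≤ J.encard := by
    have h1 := hI.encard_le_eRk_of_subset hcl
    rw [Matroid.eRk_closure_eq, ← hJ.encard_eq_eRk] at h1
    have h2 : (Set.range (zbar v r hr1)).encard = m := by
      rw [← Set.image_univ, hrI.injective.encard_image, Set.encard_univ]
      simp
    rw [h2] at h1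
    exact h1
  have hJfin : J.Finite := (Set.finite_range _).subset hJ.subset
  have hJI : AlgebraicIndependent k (fun x : J => (x : OO v ⧸ mm v)) := hJ.indep
  have : Fintype J := hJfin.fintype
  have hcard2 : Fintype.card (Fin m) ≤ Fintype.card J := by
    rw [Fintype.card_fin]
    rw [Set.encard_eq_coe_toFinset_card, Set.toFinset_card] at hcard
    exact_mod_cast hcard
  obtain ⟨e1⟩ := Function.Embedding.nonempty_of_card_le hcard2
  have hch : ∀ x : J, ∃ i, zbar v z hz i = x := fun x => hJ.subset x.2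
  choose g hg using hch
  have hginj : Function.Injective g := by
    intro x y hxy
    apply Subtype.ext
    rw [← hg x, ← hg y, hxy]
  refine ⟨e1.trans ⟨g, hginj⟩, ?_⟩
  refine (algInd_iff v (z ∘ (e1.trans ⟨g, hginj⟩)) (fun i => hz _)).1 ?_
  have h3 : zbar v (z ∘ (e1.trans ⟨g, hginj⟩)) (fun i => hz _)
      = (fun x : J => (x : OO v ⧸ mm v)) ∘ e1 := by
    funext i
    exact hg (e1 i)
  rw [h3]
  exact hJI.comp e1 e1.injective

/-! ### H3 -/

/-- the ring of the elements whose differential is an integral combination of the `dz_i` -/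
def SS (v : Place k F) {τ : Type} [Fintype τ] [DecidableEq τ] (z : τ → F) : Subalgebra k F where
  carrier := {r | v.val r ≤ 1 ∧ ∃ c : τ → F, (∀ i, v.val (c i) ≤ 1) ∧
      KaehlerDifferential.D k F r = ∑ i, c i • KaehlerDifferential.D k F (z i)}
  mul_mem' := by
    rintro a b ⟨ha, c, hc, hac⟩ ⟨hb, d, hd, hbd⟩
    refine ⟨?_, fun i => a * d i + b * c i, fun i => ?_, ?_⟩
    · rw [map_mul]; exact mul_le_one' ha hb
    · refine (Valuation.map_add _ _ _).trans (max_le ?_ ?_)
      · rw [map_mul]; exact mul_le_one' ha (hd i)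
      · rw [map_mul]; exact mul_le_one' hb (hc i)
    · rw [Derivation.leibniz, hac, hbd, Finset.smul_sum, Finset.smul_sum,
        ← Finset.sum_add_distrib]
      exact Finset.sum_congr rfl fun i _ => by rw [add_smul, mul_smul, mul_smul]
  add_mem' := by
    rintro a b ⟨ha, c, hc, hac⟩ ⟨hb, d, hd, hbd⟩
    refine ⟨(Valuation.map_add _ _ _).trans (max_le ha hb), fun i => c i + d i, fun i =>
      (Valuation.map_add _ _ _).trans (max_le (hc i) (hd i)), ?_⟩
    rw [map_add, hac, hbd, ← Finset.sum_add_distrib]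
    exact Finset.sum_congr rfl fun i _ => by rw [add_smul]
  algebraMap_mem' c := ⟨val_algebraMap_le v c, 0, by simp, by simp⟩

lemma mem_SS {v : Place k F} {τ : Type} [Fintype τ] [DecidableEq τ] {z : τ → F} {r : F} :
    r ∈ SS v z ↔ v.val r ≤ 1 ∧ ∃ c : τ → F, (∀ i, v.val (c i) ≤ 1) ∧
      KaehlerDifferential.D k F r = ∑ i, c i • KaehlerDifferential.D k F (z i) := Iff.rfl

lemma self_mem_SS {v : Place k F} {τ : Type} [Fintype τ] [DecidableEq τ] {z : τ → F}
    (hz : ∀ i, v.val (z i) ≤ 1) (i : τ) : z i ∈ SS v z := by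
  rw [mem_SS]
  refine ⟨hz i, Pi.single i 1, fun j => ?_, ?_⟩
  · by_cases hj : j = i
    · subst hj; simp
    · rw [Pi.single_eq_of_ne hj]; simp
  · rw [Finset.sum_eq_single i]
    · simp
    · intro j _ hj
      rw [Pi.single_eq_of_ne hj, zero_smul]
    · simp

lemma inv_mem_SS {v : Place k F} {τ : Type} [Fintype τ] [DecidableEq τ] {z : τ → F} {r : F}
    (hr : r ∈ SS v z) (h1 : v.val r = 1) : r⁻¹ ∈ SS v z := by
  rw [mem_SS] at hr ⊢
  obtain ⟨-, c, hc, hD⟩ := hr
  refine ⟨by rw [map_inv₀, h1, inv_one], fun i => -r⁻¹ ^ 2 * c i, fun i => ?_, ?_⟩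
  · rw [map_mul, Valuation.map_neg, map_pow, map_inv₀, h1]
    simpa using hc i
  · rw [Derivation.leibniz_inv, hD, Finset.smul_sum]
    exact Finset.sum_congr rfl fun i _ => by rw [mul_smul]

theorem D_mem_span {n : ℕ} (v : Place k F) (z : Fin (n + 1) → F) (hz : ∀ i, v.val (z i) ≤ 1)
    (hgen : IntermediateField.adjoin k (Set.range z) = ⊤) (e : Fin n ↪ Fin (n + 1))
    (he : ResIndep (k := k) v.val (z ∘ e)) (r : F) (hr : v.val r ≤ 1) :
    ∃ c : Fin (n + 1) → F, (∀ i, v.val (c i) ≤ 1) ∧
      KaehlerDifferential.D k F r = ∑ i, c i • KaehlerDifferential.D k F (z i) := by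
  classical
  -- the missing index
  obtain ⟨i₀, hi₀⟩ : ∃ i₀ : Fin (n + 1), ∀ i, i ≠ i₀ → i ∈ Set.range e := by
    have h1 : ((Finset.univ.map e)ᶜ : Finset (Fin (n + 1))).card = 1 := by
      rw [Finset.card_compl, Finset.card_map]
      simp
    obtain ⟨i₀, h2⟩ := Finset.card_eq_one.1 h1
    refine ⟨i₀, fun i hi => ?_⟩
    have h3 : i ∉ (Finset.univ.map e)ᶜ := by
      rw [h2, Finset.mem_singleton]
      exact hi
    simpa using h3
  set K₀ := IntermediateField.adjoin k (Set.range (z ∘ e)) with hK₀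
  have hpolySS : ∀ P : MvPolynomial (Fin n) k, MvPolynomial.aeval (z ∘ e) P ∈ SS v z := by
    intro P
    have h1 : MvPolynomial.aeval (z ∘ e) P ∈ Algebra.adjoin k (Set.range (z ∘ e)) := by
      rw [Algebra.adjoin_range_eq_range_aeval]
      exact ⟨P, rfl⟩
    refine Algebra.adjoin_le ?_ h1
    rintro _ ⟨i, rfl⟩
    exact self_mem_SS hz (e i)
  have hK₀v : ∀ x : F, x ∈ K₀ → x ∈ SS v z := by
    intro x hx
    rw [hK₀, IntermediateField.mem_adjoin_range_iff] at hx
    obtain ⟨P, Q, rfl⟩ := hx
    by_cases hQ : Q = 0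
    · rw [hQ, map_zero, div_zero]
      exact (SS v z).zero_mem
    · rw [div_eq_mul_inv]
      exact (SS v z).mul_mem (hpolySS P) (inv_mem_SS (hpolySS Q) (he Q hQ))
  set y := z i₀ with hy
  have hyS : y ∈ SS v z := self_mem_SS hz i₀
  have hpoly : ∀ p : Polynomial K₀, Polynomial.aeval y p ∈ SS v z := by
    intro p
    rw [Polynomial.aeval_eq_sum_range]
    refine (SS v z).sum_mem fun i _ => ?_
    rw [Algebra.smul_def]
    exact (SS v z).mul_mem (hK₀v _ (p.coeff i).2) ((SS v z).pow_mem hyS i)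
  have hall : ∀ x : F, x ∈ IntermediateField.adjoin K₀ {y} := by
    intro x
    have h1 : IntermediateField.adjoin k (Set.range z)
        ≤ (IntermediateField.adjoin K₀ {y}).restrictScalars k := by
      rw [IntermediateField.adjoin_le_iff]
      rintro _ ⟨i, rfl⟩
      rw [SetLike.mem_coe, IntermediateField.mem_restrictScalars]
      by_cases hi : i = i₀
      · rw [hi]
        exact IntermediateField.mem_adjoin_simple_self _ _
      · obtain ⟨j, rfl⟩ := hi₀ i hi
        have h2 : z (e j) ∈ K₀ := IntermediateField.subset_adjoin _ _ ⟨j, rfl⟩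
        exact (IntermediateField.adjoin K₀ {y}).algebraMap_mem ⟨z (e j), h2⟩
    rw [hgen] at h1
    exact h1 IntermediateField.mem_top
  have hrS : r ∈ SS v z := by
    obtain ⟨g, h, hgh⟩ := (IntermediateField.mem_adjoin_simple_iff K₀ r).1 (hall r)
    let _ : GCDMonoid (Polynomial K₀) := EuclideanDomain.gcdMonoid _
    obtain ⟨g', h', hg, hh, hu⟩ := extract_gcd g h
    rw [gcd_isUnit_iff] at hu
    obtain ⟨a, b, hab⟩ := hu
    generalize gcd g h = d at hg hh
    by_cases h0 : Polynomial.aeval y h = 0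
    · rw [hgh, h0, div_zero]
      exact (SS v z).zero_mem
    have hd0 : Polynomial.aeval y d ≠ 0 := by
      intro hd
      apply h0
      rw [hh, map_mul, hd, zero_mul]
    have hh0 : Polynomial.aeval y h' ≠ 0 := by
      intro hd
      apply h0
      rw [hh, map_mul, hd, mul_zero]
    have hr' : r = Polynomial.aeval y g' / Polynomial.aeval y h' := by
      rw [hgh, hg, hh, map_mul, map_mul, mul_div_mul_left _ _ hd0]
    have hv1 : v.val (Polynomial.aeval y h') = 1 := by
      refine le_antisymm (hpoly h').1 ?_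
      by_contra! hlt
      have hg1 : Polynomial.aeval y g' = r * Polynomial.aeval y h' := by
        rw [hr', div_mul_cancel₀ _ hh0]
      have hlt2 : v.val (Polynomial.aeval y g') < 1 := by
        rw [hg1, map_mul]
        exact lt_of_le_of_lt (mul_le_of_le_one_left' hr) hlt
      have h1 : (1 : F) = Polynomial.aeval y a * Polynomial.aeval y g'
          + Polynomial.aeval y b * Polynomial.aeval y h' := by
        rw [← map_mul, ← map_mul, ← map_add, hab, map_one]
      have h2 : v.val (1 : F) < 1 := by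
        rw [h1]
        refine lt_of_le_of_lt (Valuation.map_add _ _ _) (max_lt ?_ ?_)
        · rw [map_mul]
          exact lt_of_le_of_lt (mul_le_of_le_one_left' (hpoly a).1) hlt2
        · rw [map_mul]
          exact lt_of_le_of_lt (mul_le_of_le_one_left' (hpoly b).1) hlt
      rw [map_one] at h2
      exact lt_irrefl _ h2
    rw [hr', div_eq_mul_inv]
    exact (SS v z).mul_mem (hpoly g') (inv_mem_SS (hpoly h') hv1)
  exact (mem_SS.1 hrS).2

/-! ### H4 -/

lemma wedge_mem_span {d : ℕ} (v : Place k F) (z z' : Fin d → F)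
    (h : ∀ i, ∃ c : Fin d → F, (∀ j, v.val (c j) ≤ 1) ∧
      KaehlerDifferential.D k F (z' i) = ∑ j, c j • KaehlerDifferential.D k F (z j)) :
    wedge k z' ∈ Submodule.span v.val.integer {wedge k z} := by
  classical
  choose c hc hD using h
  have h1 : wedge k z' = ∑ r : Fin d → Fin d, (∏ i, c i (r i)) •
      exteriorPower.ιMulti F d (fun i => KaehlerDifferential.D k F (z (r i))) := by
    unfold wedge
    simp only [hD]
    have h2 := (exteriorPower.ιMulti F d (M := Ω[F⁄k])).toMultilinearMap.map_sum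
      (fun i j => c i j • KaehlerDifferential.D k F (z j))
    have h3 : ∀ r : Fin d → Fin d,
        (exteriorPower.ιMulti F d (M := Ω[F⁄k])).toMultilinearMap
          (fun i => c i (r i) • KaehlerDifferential.D k F (z (r i)))
        = (∏ i, c i (r i)) •
      exteriorPower.ιMulti F d (fun i => KaehlerDifferential.D k F (z (r i))) := fun r =>
      (exteriorPower.ιMulti F d (M := Ω[F⁄k])).toMultilinearMap.map_smul_univ
        (fun i => c i (r i)) (fun i => KaehlerDifferential.D k F (z (r i)))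
    simp only [h3] at h2
    exact h2
  rw [h1]
  refine Submodule.sum_mem _ fun r _ => ?_
  have hprod : v.val (∏ i, c i (r i)) ≤ 1 := by
    rw [map_prod]
    exact Finset.prod_le_one' fun i _ => hc i (r i)
  by_cases hr : Function.Injective r
  · let σ : Equiv.Perm (Fin d) := Equiv.ofBijective r (Finite.injective_iff_bijective.1 hr)
    have h4 : exteriorPower.ιMulti F d (fun i => KaehlerDifferential.D k F (z (r i)))
        = Equiv.Perm.sign σ • wedge k z :=
      (exteriorPower.ιMulti F d (M := Ω[F⁄k])).map_perm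
        (fun i => KaehlerDifferential.D k F (z i)) σ
    rw [h4]
    have h5 : (∏ i, c i (r i)) • Equiv.Perm.sign σ • wedge k z
        = (⟨∏ i, c i (r i), hprod⟩ : v.val.integer) • (Equiv.Perm.sign σ • wedge k z) := rfl
    rw [h5]
    apply Submodule.smul_mem
    rcases Int.units_eq_one_or (Equiv.Perm.sign σ) with h | h
    · rw [h, one_smul]
      exact Submodule.mem_span_singleton_self _
    · rw [h, Units.neg_smul, one_smul]
      exact Submodule.neg_mem _ (Submodule.mem_span_singleton_self _)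
  · have h4 : exteriorPower.ιMulti F d (fun i => KaehlerDifferential.D k F (z (r i))) = 0 := by
      apply AlternatingMap.map_eq_zero_of_not_injective
      intro hinj
      apply hr
      intro a b hab
      apply hinj
      simp only [hab]
    rw [h4, smul_zero]
    exact Submodule.zero_mem _

theorem mem_canonicalModule_iff {n : ℕ} (v : Place k F) (z : Fin (n + 1) → F)
    (hz : ∀ i, v.val (z i) ≤ 1)
    (hgen : IntermediateField.adjoin k (Set.range z) = ⊤) (e : Fin n ↪ Fin (n + 1))
    (he : ResIndep (k := k) v.val (z ∘ e)) (η : ⋀[F]^(n + 1) (Ω[F⁄k])) :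
    η ∈ canonicalModule k (n + 1) v.val ↔ ∃ f : F, v.val f ≤ 1 ∧ η = f • wedge k z := by
  constructor
  · intro hη
    have h1 : canonicalModule k (n + 1) v.val ≤ Submodule.span v.val.integer {wedge k z} := by
      rw [canonicalModule, Submodule.span_le]
      rintro _ ⟨z', hz', rfl⟩
      exact wedge_mem_span v z z' fun i => D_mem_span v z hz hgen e he (z' i) (hz' i)
    obtain ⟨a, ha⟩ := Submodule.mem_span_singleton.1 (h1 hη)
    exact ⟨a, a.2, ha.symm⟩
  · rintro ⟨f, hf, rfl⟩
    have h2 : wedge k z ∈ canonicalModule k (n + 1) v.val :=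
      Submodule.subset_span ⟨z, hz, rfl⟩
    exact Submodule.smul_mem _ (⟨f, hf⟩ : v.val.integer) h2

/-! ### H5, H6 -/

/-- H5: combination of H2 and H4. -/
theorem mem_canonicalModule_of_divisor {n : ℕ} {ι : Type} {σ : ι → Type} [∀ j, Fintype (σ j)]
    (x : ∀ j, σ j → F) (v : Place k F) (hx : IsPrimeDivisor (n + 1) x v) (z : Fin (n + 1) → F)
    (hz : ∀ i, v.val (z i) ≤ 1) (hgen : IntermediateField.adjoin k (Set.range z) = ⊤)
    (hres : ∀ j l l', v.val (x j l') = vmax v.val (x j) → ResGen v z (x j l / x j l'))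
    (η : ⋀[F]^(n + 1) (Ω[F⁄k])) :
    η ∈ canonicalModule k (n + 1) v.val ↔ ∃ f : F, v.val f ≤ 1 ∧ η = f • wedge k z := by
  obtain ⟨r, hr, hrI⟩ := hx
  have hrg : ∀ i, ResGen v z (r i) := by
    intro i
    obtain ⟨j, l, l', hl, hri⟩ := hr i
    rw [hri]
    exact hres j l l' hl
  obtain ⟨e, he⟩ := exists_resIndep (m := n) v z hz r hrI hrg
  exact mem_canonicalModule_iff v z hz hgen e he η

/-- H6: too few generators of the residue field. -/
theorem not_isPrimeDivisor {n m : ℕ} {ι : Type} {σ : ι → Type} [∀ j, Fintype (σ j)]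
    (x : ∀ j, σ j → F) (v : Place k F) (hmn : m < n) (z : Fin m → F)
    (hz : ∀ i, v.val (z i) ≤ 1)
    (hres : ∀ j l l', v.val (x j l') = vmax v.val (x j) → ResGen v z (x j l / x j l')) :
    ¬ IsPrimeDivisor (n + 1) x v := by
  rintro ⟨r, hr, hrI⟩
  have hrg : ∀ i, ResGen v z (r i) := by
    intro i
    obtain ⟨j, l, l', hl, hri⟩ := hr i
    rw [hri]
    exact hres j l l' hl
  obtain ⟨e, -⟩ := exists_resIndep (m := n) v z hz r hrI hrg
  have h1 := Fintype.card_le_of_injective e e.injective
  simp only [Fintype.card_fin] at h1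
  omega

end

end NefK
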